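import Pool.Agent.Helper64.RFn.GoalsF

/-!
PROJECT RFn, part F: packets SEG, CUT, ORTn.
-/

open Set Filter Topology
open scoped RealInnerProductSpace

namespace Pool.Agent.Helper81.RFn

open Pool.Agent.Helper64.RFn

theorem seg : SEG := by
  intro m e c he hc0 hc1 x hx s hs
  obtain ⟨h1, -, h3⟩ := hx
  obtain ⟨s0, s1⟩ := hs
  have e1 : e + s • (x - e) = (1 - s) • e + s • x := by
    rw [smul_sub, sub_smul, one_smul]
    abel
  have e2 : ‖e + s • (x - e)‖ ^ 2 = (1 - s) ^ 2 + 2 * (s * (1 - s)) * ⟪x, e⟫ + s ^ 2 * ‖x‖ ^ 2 := by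
    rw [e1, norm_add_sq_real, norm_smul, norm_smul, he, inner_smul_left, inner_smul_right,
      real_inner_comm]
    simp only [conj_trivial, Real.norm_eq_abs, mul_pow, sq_abs]
    ring
  rw [e2]
  have hss : 0 ≤ s * (1 - s) := mul_nonneg s0 (by linarith)
  have h4 : -(2 * (s * (1 - s)) * (c * ‖x‖)) ≤ 2 * (s * (1 - s)) * ⟪x, e⟫ := by
    nlinarith
  have h5 : 2 * (s * (1 - s)) * (c * ‖x‖) ≤ c * ((1 - s) ^ 2 + s ^ 2 * ‖x‖ ^ 2) := by
    nlinarith [mul_nonneg hc0 (sq_nonneg ((1 - s) - s * ‖x‖))]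
  have h6 : s ^ 2 * (1 / 16) ≤ s ^ 2 * ‖x‖ ^ 2 :=
    mul_le_mul_of_nonneg_left (by nlinarith) (sq_nonneg s)
  have h7 : 1 / 32 ≤ (1 - s) ^ 2 + s ^ 2 * ‖x‖ ^ 2 := by
    nlinarith [sq_nonneg (1 - s - s), sq_nonneg (1 - s)]
  have h8 : (1 - c) * (1 / 32) ≤ (1 - c) * ((1 - s) ^ 2 + s ^ 2 * ‖x‖ ^ 2) :=
    mul_le_mul_of_nonneg_left h7 (by linarith)
  nlinarith

theorem cut : CUT := by
  intro V F _ _ _ _ B ρ hρ hB
  set χ : V → ℝ := fun y => Real.smoothTransition ((‖y‖ ^ 2 - ρ ^ 2 / 4) / (ρ ^ 2 / 4)) with hχ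
  have hρ2 : 0 < ρ ^ 2 / 4 := by positivity
  have sχ : ContDiff ℝ (⊤ : ℕ∞) χ := by
    have h1 : ContDiff ℝ (⊤ : ℕ∞) (fun y : V => (‖y‖ ^ 2 - ρ ^ 2 / 4) / (ρ ^ 2 / 4)) :=
      ((contDiff_norm_sq ℝ).sub contDiff_const).div_const _
    exact Real.smoothTransition.contDiff.comp h1
  have h0 : ∀ y : V, ‖y‖ < ρ / 2 → χ y = 0 := by
    intro y hy
    refine Real.smoothTransition.zero_of_nonpos ?_
    refine div_nonpos_of_nonpos_of_nonneg ?_ hρ2.le
    nlinarith [norm_nonneg y]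
  have h1 : ∀ y : V, 3 / 4 * ρ < ‖y‖ → χ y = 1 := by
    intro y hy
    refine Real.smoothTransition.one_of_one_le ?_
    rw [le_div_iff₀ hρ2]
    nlinarith [norm_nonneg y]
  refine ⟨fun y => χ y • B y, ?_, ?_, ?_⟩
  · rw [contDiff_iff_contDiffAt]
    intro y
    by_cases hy : y = 0
    · have h2 : (fun y => χ y • B y) =ᶠ[𝓝 y] fun _ => 0 := by
        have h3 : ∀ᶠ z in 𝓝 y, ‖z‖ < ρ / 2 := by
          refine (continuous_norm.tendsto y).eventually (gt_mem_nhds ?_)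
          rw [hy, norm_zero]
          positivity
        filter_upwards [h3] with z hz
        rw [h0 z hz, zero_smul]
      exact contDiffAt_const.congr_of_eventuallyEq h2
    · exact sχ.contDiffAt.smul ((hB y hy).contDiffAt (isOpen_compl_singleton.mem_nhds hy))
  · intro y hy
    have h3 : ∀ᶠ z in 𝓝 y, 3 / 4 * ρ < ‖z‖ :=
      (continuous_norm.tendsto y).eventually (lt_mem_nhds (by linarith))
    filter_upwards [h3] with z hz
    rw [h1 z hz, one_smul]
  · intro y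
    refine ⟨χ y, rfl, fun hy => h0 y ?_⟩
    rw [hy, norm_zero]
    positivity

theorem ortn : ORTn := by
  intro m B U hB hU hU0 hrad hskew ξ
  have key : ∀ a b, ⟪U ξ a, U ξ b⟫ = ⟪a, b⟫ := by
    intro a b
    have hd : ∀ r : ℝ, HasDerivAt (fun r : ℝ => U (r • ξ)) (fderiv ℝ U (r • ξ) ξ) r := by
      intro r
      have h1 : HasDerivAt (fun r : ℝ => r • ξ) ((1 : ℝ) • ξ) r := (hasDerivAt_id r).smul_const ξ
      rw [one_smul] at h1
      exact ((hU.differentiable (by simp) (r • ξ)).hasFDerivAt).comp_hasDerivAt r h1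
    have hr : ∀ r : ℝ, r ≠ 0 → fderiv ℝ U (r • ξ) ξ = - (B (r • ξ) ξ).comp (U (r • ξ)) := by
      intro r hr
      have h1 := hrad (r • ξ)
      rw [map_smul, map_smul] at h1
      have h2 : r • fderiv ℝ U (r • ξ) ξ = r • (- (B (r • ξ) ξ).comp (U (r • ξ))) := by
        rw [h1]
        ext1 v
        simp only [ContinuousLinearMap.comp_apply, neg_apply, smul_apply, smul_neg]
      exact smul_right_injective _ hr h2
    have hf : ∀ r : ℝ, HasDerivAt (fun r : ℝ => ⟪U (r • ξ) a, U (r • ξ) b⟫)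
        (⟪U (r • ξ) a, fderiv ℝ U (r • ξ) ξ b⟫ + ⟪fderiv ℝ U (r • ξ) ξ a, U (r • ξ) b⟫) r := by
      intro r
      have ha : HasDerivAt (fun r : ℝ => U (r • ξ) a) (fderiv ℝ U (r • ξ) ξ a) r := by
        simpa using (hd r).clm_apply (hasDerivAt_const r a)
      have hb : HasDerivAt (fun r : ℝ => U (r • ξ) b) (fderiv ℝ U (r • ξ) ξ b) r := by
        simpa using (hd r).clm_apply (hasDerivAt_const r b)
      exact ha.inner ℝ hb
    obtain ⟨t, ht, he⟩ := exists_hasDerivAt_eq_slope (fun r : ℝ => ⟪U (r • ξ) a, U (r • ξ) b⟫) _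
      zero_lt_one (fun r _ => (hf r).continuousAt.continuousWithinAt) (fun r _ => hf r)
    have h0 : ⟪U (t • ξ) a, fderiv ℝ U (t • ξ) ξ b⟫ + ⟪fderiv ℝ U (t • ξ) ξ a, U (t • ξ) b⟫ = 0 := by
      rw [hr t ht.1.ne']
      simp only [neg_apply, ContinuousLinearMap.comp_apply, inner_neg_left,
        inner_neg_right]
      rw [hskew]
      ring
    rw [h0] at he
    simp only [one_smul, zero_smul, hU0, ContinuousLinearMap.id_apply, sub_zero, div_one] at he
    linarith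
  have h1 : (ContinuousLinearMap.adjoint (U ξ)).comp (U ξ) = ContinuousLinearMap.id ℝ (V m) := by
    ext1 a
    refine ext_inner_right ℝ fun b => ?_
    rw [ContinuousLinearMap.comp_apply, ContinuousLinearMap.adjoint_inner_left, key]
    rfl
  refine ⟨key, ?_, h1⟩
  have h2 : ((ContinuousLinearMap.adjoint (U ξ) : V m →L[ℝ] V m) : V m →ₗ[ℝ] V m) *
      ((U ξ : V m →L[ℝ] V m) : V m →ₗ[ℝ] V m) = 1 := by
    refine LinearMap.ext fun a => ?_
    exact DFunLike.congr_fun h1 a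
  have h3 := mul_eq_one_comm.1 h2
  ext1 a
  exact DFunLike.congr_fun h3 a

end Pool.Agent.Helper81.RFn
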