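import Pool.Agent.Helper47.RFn.GoalsC

/-!
# Project RFn: rotation of tensors by an orthogonal matrix (for YOM)
-/

set_option autoImplicit false

namespace Pool.Agent.Helper81.RFn

open Finset Pool.Agent.Helper47.RFn

variable {B : Type} [CommRing B] {m : ℕ}

/-- rotated tensor -/
def rot4 (u : Fin m → Fin m → B) (w : Fin m → Fin m → Fin m → Fin m → B) (a b c d : Fin m) : B :=
  ∑ i, ∑ j, ∑ k, ∑ l, u a i * u b j * u c k * u d l * w i j k l

/-- rotated bilinear form -/
def rot2 (u : Fin m → Fin m → B) (w : Fin m → Fin m → B) (a b : Fin m) : B :=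
  ∑ i, ∑ j, u a i * u b j * w i j

theorem rot1_sq {u : Fin m → Fin m → B} (hu : ∀ a b, ∑ c, u c a * u c b = if a = b then 1 else 0)
    (x : Fin m → B) : ∑ a, (∑ i, u a i * x i) ^ 2 = ∑ i, x i ^ 2 := by
  have e : ∀ a, (∑ i, u a i * x i) ^ 2 = ∑ i, ∑ j, x i * x j * (u a i * u a j) := by
    intro a
    rw [sq, Finset.sum_mul_sum]
    exact Finset.sum_congr rfl fun b _ => Finset.sum_congr rfl fun c _ => by ring
  rw [Finset.sum_congr rfl fun a _ => e a, Finset.sum_comm]
  refine Finset.sum_congr rfl fun b _ => ?_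
  rw [Finset.sum_comm]
  have e2 : ∀ c, ∑ a, x b * x c * (u a b * u a c) = if b = c then x b * x c else 0 := by
    intro c
    rw [← Finset.mul_sum, hu, mul_ite, mul_one, mul_zero]
  rw [Finset.sum_congr rfl fun c _ => e2 c, Finset.sum_ite_eq Finset.univ b,
    if_pos (Finset.mem_univ b), sq]

theorem rot4_nest (u : Fin m → Fin m → B) (w : Fin m → Fin m → Fin m → Fin m → B)
    (a b c d : Fin m) : rot4 u w a b c d =
      ∑ l, u d l * ∑ k, u c k * ∑ j, u b j * ∑ i, u a i * w i j k l := by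
  simp only [rot4, Finset.mul_sum]
  calc ∑ i, ∑ j, ∑ k, ∑ l, u a i * u b j * u c k * u d l * w i j k l
      = ∑ i, ∑ j, ∑ l, ∑ k, u a i * u b j * u c k * u d l * w i j k l :=
        Finset.sum_congr rfl fun i _ => Finset.sum_congr rfl fun j _ => Finset.sum_comm
    _ = ∑ i, ∑ l, ∑ j, ∑ k, u a i * u b j * u c k * u d l * w i j k l :=
        Finset.sum_congr rfl fun i _ => Finset.sum_comm
    _ = ∑ l, ∑ i, ∑ j, ∑ k, u a i * u b j * u c k * u d l * w i j k l := Finset.sum_comm
    _ = ∑ l, ∑ i, ∑ k, ∑ j, u a i * u b j * u c k * u d l * w i j k l :=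
        Finset.sum_congr rfl fun l _ => Finset.sum_congr rfl fun i _ => Finset.sum_comm
    _ = ∑ l, ∑ k, ∑ i, ∑ j, u a i * u b j * u c k * u d l * w i j k l :=
        Finset.sum_congr rfl fun l _ => Finset.sum_comm
    _ = ∑ l, ∑ k, ∑ j, ∑ i, u a i * u b j * u c k * u d l * w i j k l :=
        Finset.sum_congr rfl fun l _ => Finset.sum_congr rfl fun k _ => Finset.sum_comm
    _ = _ := Finset.sum_congr rfl fun l _ => Finset.sum_congr rfl fun k _ =>
        Finset.sum_congr rfl fun j _ => Finset.sum_congr rfl fun i _ => by ring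

theorem rot4_sq {u : Fin m → Fin m → B} (hu : ∀ a b, ∑ c, u c a * u c b = if a = b then 1 else 0)
    (w : Fin m → Fin m → Fin m → Fin m → B) :
    ∑ a, ∑ b, ∑ c, ∑ d, rot4 u w a b c d ^ 2 = ∑ i, ∑ j, ∑ k, ∑ l, w i j k l ^ 2 := by
  simp only [rot4_nest]
  calc ∑ a, ∑ b, ∑ c, ∑ d, (∑ l, u d l * ∑ k, u c k * ∑ j, u b j * ∑ i, u a i * w i j k l) ^ 2
      = ∑ a, ∑ b, ∑ c, ∑ l, (∑ k, u c k * ∑ j, u b j * ∑ i, u a i * w i j k l) ^ 2 :=
        Finset.sum_congr rfl fun a _ => Finset.sum_congr rfl fun b _ =>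
          Finset.sum_congr rfl fun c _ => rot1_sq hu _
    _ = ∑ a, ∑ b, ∑ l, ∑ c, (∑ k, u c k * ∑ j, u b j * ∑ i, u a i * w i j k l) ^ 2 :=
        Finset.sum_congr rfl fun a _ => Finset.sum_congr rfl fun b _ => Finset.sum_comm
    _ = ∑ a, ∑ b, ∑ l, ∑ k, (∑ j, u b j * ∑ i, u a i * w i j k l) ^ 2 :=
        Finset.sum_congr rfl fun a _ => Finset.sum_congr rfl fun b _ =>
          Finset.sum_congr rfl fun l _ => rot1_sq hu _
    _ = ∑ a, ∑ l, ∑ b, ∑ k, (∑ j, u b j * ∑ i, u a i * w i j k l) ^ 2 :=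
        Finset.sum_congr rfl fun a _ => Finset.sum_comm
    _ = ∑ a, ∑ l, ∑ k, ∑ b, (∑ j, u b j * ∑ i, u a i * w i j k l) ^ 2 :=
        Finset.sum_congr rfl fun a _ => Finset.sum_congr rfl fun l _ => Finset.sum_comm
    _ = ∑ a, ∑ l, ∑ k, ∑ j, (∑ i, u a i * w i j k l) ^ 2 :=
        Finset.sum_congr rfl fun a _ => Finset.sum_congr rfl fun l _ =>
          Finset.sum_congr rfl fun k _ => rot1_sq hu _
    _ = ∑ l, ∑ a, ∑ k, ∑ j, (∑ i, u a i * w i j k l) ^ 2 := Finset.sum_comm
    _ = ∑ l, ∑ k, ∑ a, ∑ j, (∑ i, u a i * w i j k l) ^ 2 :=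
        Finset.sum_congr rfl fun l _ => Finset.sum_comm
    _ = ∑ l, ∑ k, ∑ j, ∑ a, (∑ i, u a i * w i j k l) ^ 2 :=
        Finset.sum_congr rfl fun l _ => Finset.sum_congr rfl fun k _ => Finset.sum_comm
    _ = ∑ l, ∑ k, ∑ j, ∑ i, w i j k l ^ 2 :=
        Finset.sum_congr rfl fun l _ => Finset.sum_congr rfl fun k _ =>
          Finset.sum_congr rfl fun j _ => rot1_sq hu _
    _ = ∑ l, ∑ k, ∑ i, ∑ j, w i j k l ^ 2 :=
        Finset.sum_congr rfl fun l _ => Finset.sum_congr rfl fun k _ => Finset.sum_comm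
    _ = ∑ l, ∑ i, ∑ k, ∑ j, w i j k l ^ 2 :=
        Finset.sum_congr rfl fun l _ => Finset.sum_comm
    _ = ∑ i, ∑ l, ∑ k, ∑ j, w i j k l ^ 2 := Finset.sum_comm
    _ = ∑ i, ∑ l, ∑ j, ∑ k, w i j k l ^ 2 :=
        Finset.sum_congr rfl fun i _ => Finset.sum_congr rfl fun l _ => Finset.sum_comm
    _ = ∑ i, ∑ j, ∑ l, ∑ k, w i j k l ^ 2 :=
        Finset.sum_congr rfl fun i _ => Finset.sum_comm
    _ = ∑ i, ∑ j, ∑ k, ∑ l, w i j k l ^ 2 :=
        Finset.sum_congr rfl fun i _ => Finset.sum_congr rfl fun j _ => Finset.sum_comm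

/-- contraction of the indices 2, 4 -/
theorem rot4_tr {u : Fin m → Fin m → B} (hu : ∀ a b, ∑ c, u c a * u c b = if a = b then 1 else 0)
    (w : Fin m → Fin m → Fin m → Fin m → B) (a c : Fin m) :
    ∑ b, rot4 u w a b c b = rot2 u (fun i k => ∑ j, w i j k j) a c := by
  simp only [rot4, rot2, Finset.mul_sum]
  rw [Finset.sum_comm]
  refine Finset.sum_congr rfl fun i _ => ?_
  rw [Finset.sum_comm]
  calc ∑ j, ∑ b, ∑ k, ∑ l, u a i * u b j * u c k * u b l * w i j k l
      = ∑ j, ∑ k, ∑ b, ∑ l, u a i * u b j * u c k * u b l * w i j k l :=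
        Finset.sum_congr rfl fun j _ => Finset.sum_comm
    _ = ∑ j, ∑ k, ∑ l, ∑ b, u a i * u b j * u c k * u b l * w i j k l :=
        Finset.sum_congr rfl fun j _ => Finset.sum_congr rfl fun k _ => Finset.sum_comm
    _ = ∑ j, ∑ k, ∑ l, (if j = l then u a i * u c k * w i j k l else 0) := by
        refine Finset.sum_congr rfl fun j _ => Finset.sum_congr rfl fun k _ =>
          Finset.sum_congr rfl fun l _ => ?_
        have e : ∀ b, u a i * u b j * u c k * u b l * w i j k l =
            u a i * u c k * w i j k l * (u b j * u b l) := fun b => by ring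
        rw [Finset.sum_congr rfl fun b _ => e b, ← Finset.mul_sum, hu, mul_ite, mul_one, mul_zero]
    _ = ∑ j, ∑ k, u a i * u c k * w i j k j :=
        Finset.sum_congr rfl fun j _ => Finset.sum_congr rfl fun k _ => by
          rw [Finset.sum_ite_eq Finset.univ j, if_pos (Finset.mem_univ j)]
    _ = ∑ k, ∑ j, u a i * u c k * w i j k j := Finset.sum_comm

theorem rot2_tr {u : Fin m → Fin m → B} (hu : ∀ a b, ∑ c, u c a * u c b = if a = b then 1 else 0)
    (w : Fin m → Fin m → B) : ∑ a, rot2 u w a a = ∑ i, w i i := by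
  simp only [rot2]
  rw [Finset.sum_comm]
  refine Finset.sum_congr rfl fun i _ => ?_
  rw [Finset.sum_comm]
  have e2 : ∀ j, ∑ a, u a i * u a j * w i j = if i = j then w i j else 0 := by
    intro j
    rw [← Finset.sum_mul, hu, ite_mul, one_mul, zero_mul]
  rw [Finset.sum_congr rfl fun j _ => e2 j, Finset.sum_ite_eq Finset.univ i,
    if_pos (Finset.mem_univ i)]

/-- the projection -/
theorem rot2_P {u : Fin m → Fin m → B} (hu : ∀ a b, ∑ c, u a c * u b c = if a = b then 1 else 0)
    (ν : Fin m → B) (a b : Fin m) :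
    rot2 u (fun i j => (if i = j then 1 else 0) - ν i * ν j) a b =
      (if a = b then 1 else 0) - (∑ i, u a i * ν i) * ∑ i, u b i * ν i := by
  simp only [rot2, mul_sub, Finset.sum_sub_distrib]
  congr 1
  · rw [← hu a b]
    refine Finset.sum_congr rfl fun i _ => ?_
    simp only [mul_ite, mul_one, mul_zero]
    rw [Finset.sum_ite_eq Finset.univ i, if_pos (Finset.mem_univ i)]
  · rw [Finset.sum_mul_sum]
    exact Finset.sum_congr rfl fun i _ => Finset.sum_congr rfl fun j _ => by ring

/-- products of bilinear forms -/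
theorem rot4_mul1 (u : Fin m → Fin m → B) (p q : Fin m → Fin m → B) (a b c d : Fin m) :
    rot4 u (fun i j k l => p i k * q j l) a b c d = rot2 u p a c * rot2 u q b d := by
  simp only [rot4, rot2]
  rw [Finset.sum_mul_sum]
  refine Finset.sum_congr rfl fun i _ => Finset.sum_congr rfl fun j _ => ?_
  rw [Finset.sum_mul_sum]
  exact Finset.sum_congr rfl fun k _ => Finset.sum_congr rfl fun l _ => by ring

theorem rot4_mul2 (u : Fin m → Fin m → B) (p q : Fin m → Fin m → B) (a b c d : Fin m) :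
    rot4 u (fun i j k l => p i l * q j k) a b c d = rot2 u p a d * rot2 u q b c := by
  have e : rot4 u (fun i j k l => p i l * q j k) a b c d =
      rot4 u (fun i j k l => p i k * q j l) a b d c := by
    simp only [rot4]
    refine Finset.sum_congr rfl fun i _ => Finset.sum_congr rfl fun j _ => ?_
    rw [Finset.sum_comm]
    exact Finset.sum_congr rfl fun k _ => Finset.sum_congr rfl fun l _ => by ring
  rw [e, rot4_mul1]

theorem rot4_sub (u : Fin m → Fin m → B) (v w : Fin m → Fin m → Fin m → Fin m → B)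
    (a b c d : Fin m) : rot4 u (fun i j k l => v i j k l - w i j k l) a b c d =
      rot4 u v a b c d - rot4 u w a b c d := by
  simp only [rot4, mul_sub, Finset.sum_sub_distrib]

theorem rot4_mul (u : Fin m → Fin m → B) (s : B) (w : Fin m → Fin m → Fin m → Fin m → B)
    (a b c d : Fin m) : rot4 u (fun i j k l => s * w i j k l) a b c d =
      s * rot4 u w a b c d := by
  simp only [rot4, Finset.mul_sum]
  exact Finset.sum_congr rfl fun i _ => Finset.sum_congr rfl fun j _ =>
    Finset.sum_congr rfl fun k _ => Finset.sum_congr rfl fun l _ => by ring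

theorem rot4_smul [Algebra ℝ B] (u : Fin m → Fin m → B) (s : ℝ)
    (w : Fin m → Fin m → Fin m → Fin m → B)
    (a b c d : Fin m) : rot4 u (fun i j k l => s • w i j k l) a b c d =
      s • rot4 u w a b c d := by
  simp only [rot4, Finset.smul_sum, mul_smul_comm]

/-- contraction of a 3-tensor -/
theorem rot3_inv {u : Fin m → Fin m → B} (hu : ∀ a b, ∑ c, u c a * u c b = if a = b then 1 else 0)
    (x : Fin m → Fin m → Fin m → B) (b c d : Fin m) :
    ∑ a, ∑ p, ∑ q, u a b * u p c * u q d *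
      (∑ i, ∑ j, ∑ k, u a i * u p j * u q k * x i j k) = x b c d := by
  have e : ∀ a p q, u a b * u p c * u q d * (∑ i, ∑ j, ∑ k, u a i * u p j * u q k * x i j k) =
      ∑ i, ∑ j, ∑ k, x i j k * (u a b * u a i) * (u p c * u p j) * (u q d * u q k) := by
    intro a p q
    simp only [Finset.mul_sum]
    exact Finset.sum_congr rfl fun i _ => Finset.sum_congr rfl fun j _ =>
      Finset.sum_congr rfl fun k _ => by ring
  have s1 : ∀ (y : B) (b i : Fin m), ∑ a, y * (u a b * u a i) = if b = i then y else 0 := by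
    intro y b i
    rw [← Finset.mul_sum, hu, mul_ite, mul_one, mul_zero]
  calc ∑ a, ∑ p, ∑ q, u a b * u p c * u q d *
      (∑ i, ∑ j, ∑ k, u a i * u p j * u q k * x i j k)
      = ∑ a, ∑ p, ∑ q, ∑ i, ∑ j, ∑ k,
          x i j k * (u a b * u a i) * (u p c * u p j) * (u q d * u q k) :=
        Finset.sum_congr rfl fun a _ => Finset.sum_congr rfl fun p _ =>
          Finset.sum_congr rfl fun q _ => e a p q
    _ = ∑ i, ∑ j, ∑ k, ∑ a, ∑ p, ∑ q,
          x i j k * (u a b * u a i) * (u p c * u p j) * (u q d * u q k) := by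
        have h1 : ∀ (z : Fin m → Fin m → Fin m → Fin m → B),
            ∑ a, ∑ p, ∑ q, ∑ i, z a p q i = ∑ i, ∑ a, ∑ p, ∑ q, z a p q i := by
          intro z
          rw [Finset.sum_congr rfl fun a _ => Finset.sum_congr rfl fun p _ => Finset.sum_comm,
            Finset.sum_congr rfl fun a _ => Finset.sum_comm, Finset.sum_comm]
        rw [h1]
        refine Finset.sum_congr rfl fun i _ => ?_
        rw [h1]
        refine Finset.sum_congr rfl fun j _ => ?_
        rw [h1]
    _ = ∑ i, ∑ j, ∑ k, (if d = k then (if c = j then (if b = i then x i j k else 0) else 0)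
          else 0) := by
        refine Finset.sum_congr rfl fun i _ => Finset.sum_congr rfl fun j _ =>
          Finset.sum_congr rfl fun k _ => ?_
        calc ∑ a, ∑ p, ∑ q, x i j k * (u a b * u a i) * (u p c * u p j) * (u q d * u q k)
            = ∑ a, ∑ p, (if d = k then x i j k * (u a b * u a i) * (u p c * u p j) else 0) :=
              Finset.sum_congr rfl fun a _ => Finset.sum_congr rfl fun p _ => s1 _ _ _
          _ = if d = k then ∑ a, ∑ p, x i j k * (u a b * u a i) * (u p c * u p j) else 0 := by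
              split_ifs <;> simp
          _ = if d = k then ∑ a, (if c = j then x i j k * (u a b * u a i) else 0) else 0 := by
              rw [Finset.sum_congr rfl fun a _ => s1 _ _ _]
          _ = if d = k then (if c = j then ∑ a, x i j k * (u a b * u a i) else 0) else 0 := by
              congr 1
              split_ifs <;> simp
          _ = _ := by rw [s1]
    _ = x b c d := by simp

end Pool.Agent.Helper81.RFn
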