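import Pool.Agent.Helper81.RFn.HL
import Pool.Agent.Helper81.RFn.ROT

/-!
# Packet YOM of project RFn (helper47): evolution of the connection, and the dictionary
-/

set_option autoImplicit false

namespace Pool.Agent.Helper81.RFn

open Finset Pool.Agent.Helper47.RFn

section fr

variable {n : ℕ} {𝒜 : Type} [CommRing 𝒜] [Algebra ℝ 𝒜] (e : Ix n → Derivation ℝ 𝒜 𝒜)
  (n0 : Ix n → 𝒜) (A θ : Ix n → Ix n → 𝒜)

theorem C_anti (a b c : Ix n) : FR.C e n0 A θ a b c = - FR.C e n0 A θ b a c := by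
  simp only [FR.C, neg_add, ← Finset.sum_neg_distrib]
  congr 1
  · exact Finset.sum_congr rfl fun j _ => by ring
  · ring

theorem Gam_anti (a b c : Ix n) : FR.Gam e n0 A θ a b c = - FR.Gam e n0 A θ a c b := by
  rw [FR.Gam, FR.Gam, ← smul_neg, C_anti e n0 A θ a b c, C_anti e n0 A θ b c a,
    C_anti e n0 A θ a c b]
  congr 1
  ring

end fr

variable {n : ℕ} {T : ℝ} (P : BA n T) (A θ S0 : Ix n → Ix n → P.B)

theorem D_H (hP : P.Ax) (hDe : ∀ i f, P.Dt (P.e i f) = P.e i (P.Dt f))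
    (hDA : ∀ a i, P.Dt (A a i) = ∑ b, S0 a b * A b i) (a : Ix n) (f : P.B) :
    P.Dt (Hb P A θ S0 a f) = Hb P A θ S0 a (P.Dt f) +
      ∑ b, P.u a b * ((∑ i, (∑ c, S0 b c * A c i) * P.e i f) +
        (1 / 2 : ℝ) • ∑ c, ∑ d, P.Dt (FR.Gam P.e P.n0 A θ b c d) * P.U c d f) := by
  rw [H_apply, H_apply, map_sum, ← Finset.sum_add_distrib]
  refine Finset.sum_congr rfl fun b _ => ?_
  rw [Derivation.leibniz, hP.Du, smul_zero, add_zero, smul_eq_mul, ← mul_add]
  congr 1
  simp only [Lf, FR.Fd, map_add, map_sum, Derivation.map_smul, Derivation.leibniz, hDe, hP.DU, hDA,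
    smul_eq_mul]
  simp only [Finset.sum_add_distrib, smul_add]
  have e1 : ∑ x, P.e x f * ∑ b_1, S0 b b_1 * A b_1 x = ∑ x, (∑ c, S0 b c * A c x) * P.e x f :=
    Finset.sum_congr rfl fun x _ => mul_comm _ _
  have e2 : ∑ x, ∑ y, P.U x y f * P.Dt (FR.Gam P.e P.n0 A θ b x y) =
      ∑ x, ∑ y, P.Dt (FR.Gam P.e P.n0 A θ b x y) * P.U x y f :=
    Finset.sum_congr rfl fun x _ => Finset.sum_congr rfl fun y _ => mul_comm _ _
  rw [e1, e2]
  abel

theorem S_H (hP : P.Ax) (a : Ix n) (f : P.B) :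
    ∑ b, Sb P A θ S0 a b * Hb P A θ S0 b f =
      ∑ c, ∑ d, P.u a c * S0 c d * Lf P A θ d f := by
  have e : ∀ b, Sb P A θ S0 a b * Hb P A θ S0 b f =
      ∑ c, ∑ d, ∑ e, P.u a c * S0 c d * Lf P A θ e f * (P.u b d * P.u b e) := by
    intro b
    rw [H_apply]
    change (∑ c, ∑ d, P.u a c * P.u b d * S0 c d) * _ = _
    rw [Finset.sum_mul]
    refine Finset.sum_congr rfl fun c _ => ?_
    rw [Finset.sum_mul]
    refine Finset.sum_congr rfl fun d _ => ?_
    rw [Finset.mul_sum]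
    refine Finset.sum_congr rfl fun e _ => ?_
    ring
  rw [Finset.sum_congr rfl fun b _ => e b, Finset.sum_comm]
  refine Finset.sum_congr rfl fun c _ => ?_
  rw [Finset.sum_comm]
  refine Finset.sum_congr rfl fun d _ => ?_
  rw [Finset.sum_comm]
  have e2 : ∀ e, ∑ b, P.u a c * S0 c d * Lf P A θ e f * (P.u b d * P.u b e) =
      P.u a c * S0 c d * Lf P A θ e f * (if d = e then 1 else 0) := by
    intro e
    rw [← Finset.mul_sum, hP.utu]
    rfl
  rw [Finset.sum_congr rfl fun e _ => e2 e]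
  simp

/-- the defect of the connection -/
noncomputable def Xd (b c d : Ix n) : P.B :=
  P.Dt (FR.Gam P.e P.n0 A θ b c d) - ∑ f, S0 b f * FR.Gam P.e P.n0 A θ f c d

theorem Xd_anti (b c d : Ix n) : Xd P A θ S0 b c d = - Xd P A θ S0 b d c := by
  have e : ∀ f, S0 b f * FR.Gam P.e P.n0 A θ f c d = - (S0 b f * FR.Gam P.e P.n0 A θ f d c) :=
    fun f => by rw [Gam_anti P.e P.n0 A θ f c d, mul_neg]
  rw [Xd, Xd, Gam_anti P.e P.n0 A θ b c d, map_neg, Finset.sum_congr rfl fun f _ => e f,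
    Finset.sum_neg_distrib]
  ring

/-- rotated defect -/
noncomputable def Zd (a p q : Ix n) : P.B :=
  ∑ i, ∑ j, ∑ k, P.u a i * P.u p j * P.u q k * Xd P A θ S0 i j k

theorem Zd_anti (a p q : Ix n) : Zd P A θ S0 a p q = - Zd P A θ S0 a q p := by
  rw [Zd, Zd, ← Finset.sum_neg_distrib]
  refine Finset.sum_congr rfl fun i _ => ?_
  rw [Finset.sum_comm, ← Finset.sum_neg_distrib]
  refine Finset.sum_congr rfl fun j _ => ?_
  rw [← Finset.sum_neg_distrib]
  refine Finset.sum_congr rfl fun k _ => ?_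
  rw [Xd_anti]
  ring

theorem Yb_anti (a c d : Ix n) : P.Yb A θ S0 a c d = - P.Yb A θ S0 a d c := by
  have e : ∀ a c d, P.Yb A θ S0 a c d =
      Hb P A θ S0 d (Sb P A θ S0 a c) - Hb P A θ S0 c (Sb P A θ S0 a d) := fun _ _ _ => rfl
  rw [e, e]
  ring

/-- evolution of the connection -/
theorem conn (hP : P.Ax) (hDe : ∀ i f, P.Dt (P.e i f) = P.e i (P.Dt f))
    (hDA : ∀ a i, P.Dt (A a i) = ∑ b, S0 a b * A b i)
    (hF : (P.toFB A θ S0).Full) (a p q : Ix n) :
    P.Yb A θ S0 a p q = Zd P A θ S0 a p q := by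
  have key : ∀ p q, (P.Yb A θ S0 a p q - Zd P A θ S0 a p q : P.B) = 0 := by
    refine (hF.ind (fun _ => 0) (fun p q => P.Yb A θ S0 a p q - Zd P A θ S0 a p q)
      (fun k l => ?_) fun f => ?_).2
    · change (P.Yb A θ S0 a k l - Zd P A θ S0 a k l : P.B) =
        - (P.Yb A θ S0 a l k - Zd P A θ S0 a l k)
      rw [Yb_anti, Zd_anti]
      ring
    have e1 : P.Dt (Hb P A θ S0 a f) = Hb P A θ S0 a (P.Dt f) +
      (∑ b, Sb P A θ S0 a b * Hb P A θ S0 b f) +
        (1 / 2 : ℝ) • ∑ c, ∑ d, P.Yb A θ S0 a c d * P.V c d f := hF.DHY a f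
    have e2 := D_H P A θ S0 hP hDe hDA a f
    have e3 := S_H P A θ S0 hP a f
    rw [e2, e3] at e1
    have e4 : ∑ b, P.u a b * ((∑ i, (∑ c, S0 b c * A c i) * P.e i f) +
        (1 / 2 : ℝ) • ∑ c, ∑ d, P.Dt (FR.Gam P.e P.n0 A θ b c d) * P.U c d f) =
        (∑ c, ∑ d, P.u a c * S0 c d * Lf P A θ d f) +
        (1 / 2 : ℝ) • ∑ b, ∑ c, ∑ d, P.u a b * Xd P A θ S0 b c d * P.U c d f := by
      rw [Finset.smul_sum, ← Finset.sum_add_distrib]
      refine Finset.sum_congr rfl fun b _ => ?_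
      have f1 : ∑ c, ∑ d, P.u a b * Xd P A θ S0 b c d * P.U c d f =
          P.u a b * ∑ c, ∑ d, Xd P A θ S0 b c d * P.U c d f := by
        simp only [Finset.mul_sum, mul_assoc]
      have f2 : ∑ d, P.u a b * S0 b d * Lf P A θ d f = P.u a b * ∑ d, S0 b d * Lf P A θ d f := by
        simp only [Finset.mul_sum, mul_assoc]
      rw [f1, f2, ← mul_smul_comm, ← mul_add]
      congr 1
      have f3 : ∑ d, S0 b d * Lf P A θ d f = (∑ i, (∑ c, S0 b c * A c i) * P.e i f) +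
          (1 / 2 : ℝ) • ∑ c, ∑ d, (∑ g, S0 b g * FR.Gam P.e P.n0 A θ g c d) * P.U c d f := by
        simp only [Lf, FR.Fd, mul_add, Finset.sum_add_distrib, Finset.mul_sum, Finset.sum_mul,
          mul_smul_comm, ← Finset.smul_sum]
        congr 1
        · rw [Finset.sum_comm]
          exact Finset.sum_congr rfl fun i _ => Finset.sum_congr rfl fun c _ => by ring
        · congr 1
          rw [Finset.sum_comm]
          refine Finset.sum_congr rfl fun c _ => ?_
          rw [Finset.sum_comm]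
          exact Finset.sum_congr rfl fun d _ => Finset.sum_congr rfl fun g _ => by ring
      have f4 : ∑ c, ∑ d, Xd P A θ S0 b c d * P.U c d f =
          (∑ c, ∑ d, P.Dt (FR.Gam P.e P.n0 A θ b c d) * P.U c d f) -
          ∑ c, ∑ d, (∑ g, S0 b g * FR.Gam P.e P.n0 A θ g c d) * P.U c d f := by
        simp only [Xd, sub_mul, Finset.sum_sub_distrib]
      rw [f3, f4, smul_sub]
      abel
    have e5 : ∑ p, ∑ q, Zd P A θ S0 a p q * P.V p q f =
        ∑ b, ∑ c, ∑ d, P.u a b * Xd P A θ S0 b c d * P.U c d f := by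
      have g1 : ∀ p q, Zd P A θ S0 a p q * P.V p q f = ∑ i, ∑ j, ∑ k,
          P.u a i * P.u p j * P.u q k * Xd P A θ S0 i j k * P.V p q f := fun p q => by
        simp only [Zd, Finset.sum_mul]
      have h1 : ∀ (z : Ix n → Ix n → Ix n → P.B),
          ∑ p, ∑ q, ∑ i, z p q i = ∑ i, ∑ p, ∑ q, z p q i := by
        intro z
        rw [Finset.sum_congr rfl fun a _ => Finset.sum_comm, Finset.sum_comm]
      rw [Finset.sum_congr rfl fun p _ => Finset.sum_congr rfl fun q _ => g1 p q, h1]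
      refine Finset.sum_congr rfl fun i _ => ?_
      rw [h1]
      refine Finset.sum_congr rfl fun j _ => ?_
      rw [h1]
      refine Finset.sum_congr rfl fun k _ => ?_
      rw [hP.UeV, Finset.mul_sum]
      refine Finset.sum_congr rfl fun p _ => ?_
      rw [Finset.mul_sum]
      exact Finset.sum_congr rfl fun q _ => by ring
    have e6 : (1 / 2 : ℝ) • ∑ p, ∑ q, P.Yb A θ S0 a p q * P.V p q f =
        (1 / 2 : ℝ) • ∑ p, ∑ q, Zd P A θ S0 a p q * P.V p q f := by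
      rw [e5]
      rw [e4] at e1
      linear_combination -e1
    have e7 : ∑ p, ∑ q, P.Yb A θ S0 a p q * P.V p q f =
        ∑ p, ∑ q, Zd P A θ S0 a p q * P.V p q f := by
      have := congrArg (fun x : P.B => (2 : ℝ) • x) e6
      simpa only [smul_smul, show (2 : ℝ) * (1 / 2) = 1 by norm_num, one_smul] using this
    have e8 : ∑ i, (0 : P.B) * Hb P A θ S0 i f +
        ∑ p, ∑ q, (P.Yb A θ S0 a p q - Zd P A θ S0 a p q) * P.V p q f = 0 := by
      simp only [sub_mul, Finset.sum_sub_distrib, e7, sub_self, zero_mul, Finset.sum_const_zero,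
        add_zero]
    exact e8
  exact sub_eq_zero.1 (key p q)

theorem goal_YOM (hE0 : Goal_E0) (hINSA : Goal_INSA) (hALG0 : Goal_ALG0) (hALG1 : Goal_ALG1)
    (hALG2 : Goal_ALG2) : Goal_YOM := by
  intro n T P hP A θ S0 h
  obtain ⟨-, -, -, hU, hV, hDe, heu, -, hFH⟩ := hE0 n T P hP
  have hB : (P.toFB A θ S0).Base := hINSA n T P hP A θ S0 h
  have a0 := hALG0 n T _ hB
  obtain ⟨a1, a2, a3, a4⟩ := hALG1 n T _ hB
  have hF : (P.toFB A θ S0).Full := hALG2 n T _ hB a0 a1 a2 a3 a4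
  have utu : ∀ a b, ∑ c, P.u c a * P.u c b = if a = b then 1 else 0 := hP.utu
  have uut : ∀ a b, ∑ c, P.u a c * P.u b c = if a = b then 1 else 0 := hP.uut
  have hRic : ∀ i j, ((P.toFB A θ S0).Ric i j : P.B) =
      rot2 P.u (fun i k => FR.Rc P.e P.n0 A θ i k) i j := by
    intro i j
    exact rot4_tr utu (fun i j k l => FR.R P.e P.n0 A θ i j k l) i j
  have hlam : P.lamb A θ S0 = (1 / (n : ℝ)) • ∑ a, FR.Rc P.e P.n0 A θ a a := by
    have hs : ∀ x : Ix n → P.B, (∀ a, x a = rot2 P.u (fun i k => FR.Rc P.e P.n0 A θ i k) a a) →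
        (1 / (n : ℝ)) • ∑ a, x a = (1 / (n : ℝ)) • ∑ a, FR.Rc P.e P.n0 A θ a a := by
      intro x hx
      rw [Finset.sum_congr rfl fun a _ => hx a, rot2_tr utu]
    exact hs (fun a => (P.toFB A θ S0).Ric a a) (fun a => hRic a a)
  refine ⟨hF, ?_, hlam, hRic, ?_, ?_⟩
  · intro b c d
    have e1 : ∀ a p q, P.u a b * P.u p c * P.u q d * P.Yb A θ S0 a p q =
        P.u a b * P.u p c * P.u q d * ∑ i, ∑ j, ∑ k, P.u a i * P.u p j * P.u q k *
          Xd P A θ S0 i j k := by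
      intro a p q
      rw [conn P A θ S0 hP hDe h.DA hF]
      rfl
    rw [Finset.sum_congr rfl fun a _ => Finset.sum_congr rfl fun p _ =>
      Finset.sum_congr rfl fun q _ => e1 a p q, rot3_inv utu, Xd]
    ring
  · intro hS i j
    change (∑ c, ∑ d, P.u i c * P.u j d * S0 c d : P.B) = (P.toFB A θ S0).Ric i j
    rw [hRic]
    simp only [rot2, hS]
  · have hI : ∀ a b c d, ((P.toFB A θ S0).E a b c d : P.B) = rot4 P.u (fun a b c d =>
        FR.R P.e P.n0 A θ a b c d - (1 / ((n : ℝ) - 1)) •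
        (P.lamb A θ S0 * ((P.dl a c - FR.nf P.n0 A a * FR.nf P.n0 A c) *
          (P.dl b d - FR.nf P.n0 A b * FR.nf P.n0 A d)
        - (P.dl a d - FR.nf P.n0 A a * FR.nf P.n0 A d) *
          (P.dl b c - FR.nf P.n0 A b * FR.nf P.n0 A c)))) a b c d := by
      intro a b c d
      rw [rot4_sub, rot4_smul, rot4_mul, rot4_sub]
      have m1 := rot4_mul1 P.u (fun i j => P.dl i j - FR.nf P.n0 A i * FR.nf P.n0 A j)
        (fun i j => P.dl i j - FR.nf P.n0 A i * FR.nf P.n0 A j) a b c d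
      have m2 := rot4_mul2 P.u (fun i j => P.dl i j - FR.nf P.n0 A i * FR.nf P.n0 A j)
        (fun i j => P.dl i j - FR.nf P.n0 A i * FR.nf P.n0 A j) a b c d
      have m3 : ∀ a b, rot2 P.u (fun i j => P.dl i j - FR.nf P.n0 A i * FR.nf P.n0 A j) a b =
          (P.toFB A θ S0).P a b := fun a b => rot2_P uut (fun i => FR.nf P.n0 A i) a b
      rw [m1, m2, m3, m3, m3, m3]
      rfl
    change ∑ a, ∑ b, ∑ c, ∑ d, ((P.toFB A θ S0).E a b c d : P.B) ^ 2 = _
    rw [Finset.sum_congr rfl fun a _ => Finset.sum_congr rfl fun b _ =>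
      Finset.sum_congr rfl fun c _ => Finset.sum_congr rfl fun d _ => by rw [hI a b c d]]
    exact rot4_sq utu _

end Pool.Agent.Helper81.RFn
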