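import Pool.Agent.Helper47.RFn.GoalsC

/-!
# Project RFn, packet NAT: naturality
-/

namespace Pool.Agent.Helper81.RFn

open Finset Pool.Agent.Helper47.RFn

theorem goal_NAT : Goal_NAT := by
  intro n 𝒜 ℬ _ _ _ _ e e' φ n0 A θ hE
  have hFd : ∀ a f, φ (FR.Fd e A a f) = FR.Fd e' (fun a i => φ (A a i)) a (φ f) := by
    intro a f
    simp only [FR.Fd, map_sum, map_mul, hE]
  have hnf : ∀ a, φ (FR.nf n0 A a) = FR.nf (fun i => φ (n0 i)) (fun a i => φ (A a i)) a := by
    intro a
    simp only [FR.nf, map_sum, map_mul]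
  have hd : ∀ a b : Ix n, φ (if a = b then 1 else 0) = if a = b then 1 else 0 := by
    intro a b
    split_ifs
    · exact map_one φ
    · exact map_zero φ
  have hC : ∀ a b c, φ (FR.C e n0 A θ a b c)
      = FR.C e' (fun i => φ (n0 i)) (fun a i => φ (A a i)) (fun i a => φ (θ i a)) a b c := by
    intro a b c
    simp only [FR.C, map_sum, map_mul, map_add, map_sub, hFd, hnf, hd]
  have hG : ∀ a b c, φ (FR.Gam e n0 A θ a b c)
      = FR.Gam e' (fun i => φ (n0 i)) (fun a i => φ (A a i)) (fun i a => φ (θ i a)) a b c := by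
    intro a b c
    simp only [FR.Gam, map_add, map_sub, map_smul, hC]
  refine ⟨hC, hG, fun a b c d => ?_⟩
  simp only [FR.R, FR.K, map_neg, map_sum, map_mul, map_add, map_sub, hFd, hG, hC]

end Pool.Agent.Helper81.RFn
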