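import Pool.Agent.Helper81.RFn.HL

/-!
# Packet VIH of project RFn (helper47): functions of `(x,t)` in the bundle
-/

set_option autoImplicit false

namespace Pool.Agent.Helper81.RFn

open Finset Pool.Agent.Helper47.RFn

theorem goal_VIH (hE0 : Goal_E0) (hFRA : Goal_FRA) (_hINSB : Goal_INSB) : Goal_VIH := by
  intro n T P hP A θ S0 h f g hf hg
  obtain ⟨-, -, -, hU, hV, -, heu, -, hFH⟩ := hE0 n T P hP
  obtain ⟨-, -, hG, -⟩ := hFRA n P.B P.e P.n0 A θ (hFH A θ S0 h)
  have hH : ∀ {f : P.B}, P.XT f → ∀ a, Hb P A θ S0 a f = ∑ b, P.u a b * FR.Fd P.e A b f := by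
    intro f hf a
    rw [H_apply]
    exact Finset.sum_congr rfl fun b _ => by rw [L_XT P A θ hf]
  refine ⟨hf.2, hH hf, ?_, ?_⟩
  · change ∑ a, Hb P A θ S0 a f * Hb P A θ S0 a g = _
    have e : ∀ a, Hb P A θ S0 a f * Hb P A θ S0 a g =
        ∑ b, ∑ c, FR.Fd P.e A b f * FR.Fd P.e A c g * (P.u a b * P.u a c) := by
      intro a
      rw [hH hf, hH hg, Finset.sum_mul_sum]
      exact Finset.sum_congr rfl fun b _ => Finset.sum_congr rfl fun c _ => by ring
    rw [Finset.sum_congr rfl fun a _ => e a, Finset.sum_comm]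
    refine Finset.sum_congr rfl fun b _ => ?_
    rw [Finset.sum_comm]
    have e2 : ∀ c, ∑ a, FR.Fd P.e A b f * FR.Fd P.e A c g * (P.u a b * P.u a c) =
        if b = c then FR.Fd P.e A b f * FR.Fd P.e A c g else 0 := by
      intro c
      rw [← Finset.mul_sum, hP.utu, BA.dl, mul_ite, mul_one, mul_zero]
    rw [Finset.sum_congr rfl fun c _ => e2 c, Finset.sum_ite_eq Finset.univ b,
      if_pos (Finset.mem_univ b)]
  · change ∑ a, Hb P A θ S0 a (Hb P A θ S0 a f) = _
    have e : ∀ a, Hb P A θ S0 a (Hb P A θ S0 a f) =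
        (∑ b, ∑ c, ∑ d, FR.Gam P.e P.n0 A θ b c d * FR.Fd P.e A c f * (P.u a b * P.u a d)) +
        ∑ b, ∑ c, FR.Fd P.e A b (FR.Fd P.e A c f) * (P.u a b * P.u a c) := by
      intro a
      rw [hH hf, H_apply, ← Finset.sum_add_distrib]
      refine Finset.sum_congr rfl fun b _ => ?_
      rw [L_sum, Finset.mul_sum, ← Finset.sum_add_distrib]
      refine Finset.sum_congr rfl fun c _ => ?_
      rw [L_mul, L_u P A θ hP heu hG, L_XT P A θ (XT_F P A h.XA hU hV hf c), mul_add, add_comm,
        Finset.mul_sum, Finset.mul_sum]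
      congr 1
      · exact Finset.sum_congr rfl fun d _ => by ring
      · ring
    rw [Finset.sum_congr rfl fun a _ => e a, Finset.sum_add_distrib, add_comm, sub_eq_add_neg]
    congr 1
    · rw [Finset.sum_comm]
      refine Finset.sum_congr rfl fun b _ => ?_
      rw [Finset.sum_comm]
      have e2 : ∀ c, ∑ a, FR.Fd P.e A b (FR.Fd P.e A c f) * (P.u a b * P.u a c) =
          if b = c then FR.Fd P.e A b (FR.Fd P.e A c f) else 0 := by
        intro c
        rw [← Finset.mul_sum, hP.utu, BA.dl, mul_ite, mul_one, mul_zero]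
      rw [Finset.sum_congr rfl fun c _ => e2 c, Finset.sum_ite_eq Finset.univ b,
        if_pos (Finset.mem_univ b)]
    · rw [Finset.sum_comm, ← Finset.sum_neg_distrib]
      refine Finset.sum_congr rfl fun b _ => ?_
      rw [Finset.sum_comm, ← Finset.sum_neg_distrib]
      refine Finset.sum_congr rfl fun c _ => ?_
      rw [Finset.sum_comm]
      have e2 : ∀ d, ∑ a, FR.Gam P.e P.n0 A θ b c d * FR.Fd P.e A c f * (P.u a b * P.u a d) =
          if b = d then FR.Gam P.e P.n0 A θ b c d * FR.Fd P.e A c f else 0 := by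
        intro d
        rw [← Finset.mul_sum, hP.utu, BA.dl, mul_ite, mul_one, mul_zero]
      rw [Finset.sum_congr rfl fun d _ => e2 d, Finset.sum_ite_eq Finset.univ b,
        if_pos (Finset.mem_univ b), hG b c b, neg_mul]

end Pool.Agent.Helper81.RFn
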