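import Pool.Agent.Helper47.RFn.GoalsC

/-!
# Project RFn: the horizontal fields of the instance, common lemmas (for VIH, YOM)
-/

set_option autoImplicit false

namespace Pool.Agent.Helper81.RFn

open Finset Pool.Agent.Helper47.RFn

theorem dsum_apply {B : Type} [CommRing B] [Algebra ℝ B] {ι : Type} (s : Finset ι)
    (D : ι → Derivation ℝ B B) (f : B) : (∑ i ∈ s, D i) f = ∑ i ∈ s, D i f := by
  have h : ∀ D' : Derivation ℝ B B, D' f = Derivation.coeFnAddMonoidHom D' f := fun _ => rfl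
  rw [h, map_sum, Finset.sum_apply]
  rfl

variable {n : ℕ} {T : ℝ} (P : BA n T) (A θ S0 : Ix n → Ix n → P.B)

/-- `L_b f` -/
noncomputable def Lf (b : Ix n) (f : P.B) : P.B :=
  FR.Fd P.e A b f + (1 / 2 : ℝ) • ∑ c, ∑ d, FR.Gam P.e P.n0 A θ b c d * P.U c d f

/-- `H_a f` as an element of `P.B` -/
noncomputable def Hb (a : Ix n) (f : P.B) : P.B := (P.toFB A θ S0).H a f

/-- `S_ab` as an element of `P.B` -/
noncomputable def Sb (a b : Ix n) : P.B := (P.toFB A θ S0).S a b

theorem H_apply (a : Ix n) (f : P.B) :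
    Hb P A θ S0 a f = ∑ b, P.u a b * Lf P A θ b f := by
  change (∑ b, P.u a b • (∑ i, A b i • P.e i
    + (1 / 2 : ℝ) • ∑ c, ∑ d, FR.Gam P.e P.n0 A θ b c d • P.U c d)) f = _
  rw [dsum_apply]
  refine Finset.sum_congr rfl fun b _ => ?_
  rw [Derivation.smul_apply, Derivation.add_apply, dsum_apply, Derivation.smul_apply, dsum_apply,
    Finset.sum_congr rfl fun c _ => dsum_apply _ _ _]
  rfl

theorem L_XT {f : P.B} (hf : P.XT f) (b : Ix n) : Lf P A θ b f = FR.Fd P.e A b f := by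
  have e : ∀ c d, FR.Gam P.e P.n0 A θ b c d * P.U c d f = 0 := fun c d => by
    rw [hf.1, mul_zero]
  simp only [Lf, e, Finset.sum_const_zero, smul_zero, add_zero]

theorem L_add (b : Ix n) (f g : P.B) : Lf P A θ b (f + g) = Lf P A θ b f + Lf P A θ b g := by
  simp only [Lf, FR.Fd, map_add, mul_add, Finset.sum_add_distrib, smul_add]
  abel

theorem L_mul (b : Ix n) (f g : P.B) :
    Lf P A θ b (f * g) = f * Lf P A θ b g + g * Lf P A θ b f := by
  simp only [Lf, FR.Fd, Derivation.leibniz, smul_eq_mul, mul_add, mul_smul_comm, Finset.mul_sum,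
    Finset.sum_add_distrib, smul_add]
  have e1 : ∑ x, A b x * (f * P.e x g) = ∑ x, f * (A b x * P.e x g) :=
    Finset.sum_congr rfl fun x _ => by ring
  have e2 : ∑ x, A b x * (g * P.e x f) = ∑ x, g * (A b x * P.e x f) :=
    Finset.sum_congr rfl fun x _ => by ring
  have e3 : ∑ x, ∑ y, FR.Gam P.e P.n0 A θ b x y * (f * P.U x y g) =
      ∑ x, ∑ y, f * (FR.Gam P.e P.n0 A θ b x y * P.U x y g) :=
    Finset.sum_congr rfl fun x _ => Finset.sum_congr rfl fun y _ => by ring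
  have e4 : ∑ x, ∑ y, FR.Gam P.e P.n0 A θ b x y * (g * P.U x y f) =
      ∑ x, ∑ y, g * (FR.Gam P.e P.n0 A θ b x y * P.U x y f) :=
    Finset.sum_congr rfl fun x _ => Finset.sum_congr rfl fun y _ => by ring
  rw [e1, e2, e3, e4]
  abel

theorem L_sum {ι : Type} (s : Finset ι) (b : Ix n) (f : ι → P.B) :
    Lf P A θ b (∑ i ∈ s, f i) = ∑ i ∈ s, Lf P A θ b (f i) := by
  classical
  induction s using Finset.induction_on with
  | empty => simp [Lf, FR.Fd]
  | insert a s ha ih => rw [Finset.sum_insert ha, Finset.sum_insert ha, L_add, ih]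

/-- `L_b u_ac = Γ_bcd u_ad` -/
theorem L_u (hP : P.Ax) (he : ∀ i a b, P.e i (P.u a b) = 0)
    (hG : ∀ a b c, FR.Gam P.e P.n0 A θ a b c = - FR.Gam P.e P.n0 A θ a c b) (b a c : Ix n) :
    Lf P A θ b (P.u a c) = ∑ d, FR.Gam P.e P.n0 A θ b c d * P.u a d := by
  simp only [Lf, FR.Fd, he, mul_zero, Finset.sum_const_zero, zero_add, hP.Uu, BA.dl, mul_sub,
    Finset.sum_sub_distrib, ite_mul, mul_ite, one_mul, zero_mul]
  have e1 : ∑ x, ∑ y, (if x = c then FR.Gam P.e P.n0 A θ b x y * P.u a y else 0) =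
      ∑ y, FR.Gam P.e P.n0 A θ b c y * P.u a y := by
    rw [Finset.sum_comm]
    exact Finset.sum_congr rfl fun y _ => by simp
  have e2 : ∑ x, ∑ y, (if y = c then FR.Gam P.e P.n0 A θ b x y * P.u a x else 0) =
      - ∑ y, FR.Gam P.e P.n0 A θ b c y * P.u a y := by
    rw [← Finset.sum_neg_distrib]
    refine Finset.sum_congr rfl fun x _ => ?_
    rw [Finset.sum_ite_eq' Finset.univ c, if_pos (Finset.mem_univ c), hG b x c, neg_mul]
  rw [e1, e2, sub_neg_eq_add, ← two_smul ℝ, smul_smul]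
  norm_num

theorem XT_F (hA : ∀ a i, P.XT (A a i)) (hU : ∀ i k l f, P.e i (P.U k l f) = P.U k l (P.e i f))
    (hV : ∀ i k l f, P.e i (P.V k l f) = P.V k l (P.e i f)) {f : P.B} (hf : P.XT f) (b : Ix n) :
    P.XT (FR.Fd P.e A b f) := by
  refine ⟨fun k l => ?_, fun k l => ?_⟩
  · simp only [FR.Fd, map_sum, Derivation.leibniz, (hA _ _).1, smul_zero, add_zero, ← hU, hf.1,
      map_zero, Finset.sum_const_zero]
  · simp only [FR.Fd, map_sum, Derivation.leibniz, (hA _ _).2, smul_zero, add_zero, ← hV, hf.2,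
      map_zero, Finset.sum_const_zero]

end Pool.Agent.Helper81.RFn
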